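import Pool.Agent.MP_acab80_co.Upper

/-!
# The maximal number of complete extensions of an argumentation framework
-/

namespace Pool.Agent.Results.MP_acab80_co.SigmaMax

/-- `S` defends `a`: every attacker of `a` is attacked by some element of `S`. -/
def Defends {A : Type*} (R : A → A → Prop) (S : Set A) (a : A) : Prop :=
  ∀ b, R b a → ∃ c ∈ S, R c b

/-- Complete extensions of the argumentation framework `(A, R)`: conflict-free sets which defend
each of their elements and contain every argument that they defend. -/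
def IsComplete {A : Type*} (R : A → A → Prop) (S : Set A) : Prop :=
  (¬ ∃ a ∈ S, ∃ b ∈ S, R a b) ∧ (∀ a ∈ S, Defends R S a) ∧ ∀ a, Defends R S a → a ∈ S

/-- The numbers of complete extensions of argumentation frameworks with `n` arguments. -/
def counts (n : ℕ) : Set ℕ :=
  {k | ∃ (A : Type) (_ : Fintype A) (R : A → A → Prop),
    Fintype.card A = n ∧ {S : Set A | IsComplete R S}.ncard = k}

open Classical in
/-- The labelling attached to a set. -/
noncomputable def lab {A : Type*} (R : A → A → Prop) (S : Set A) (x : A) : Fin 3 :=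
  if x ∈ S then 2 else if ∃ y ∈ S, R y x then 0 else 1

open Classical in
lemma ncard_le {A : Type} [Fintype A] (R : A → A → Prop) :
    {S : Set A | IsComplete R S}.ncard ≤
      (MP_acab80_co.Lab (fun x y => R x y ∧ x ≠ y) Finset.univ
        (Finset.univ.filter (fun x => R x x))).card := by
  rw [← Set.ncard_coe_finset]
  refine Set.ncard_le_ncard_of_injOn (lab R) ?_ ?_ (Finset.finite_toSet _)
  · rintro S ⟨hcf, hadm, hcl⟩
    rw [Finset.mem_coe, MP_acab80_co.mem_Lab]
    have two_iff : ∀ x, lab R S x = 2 ↔ x ∈ S := by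
      intro x
      unfold lab
      split_ifs with h1 h2
      · simp [h1]
      · simp [h1]
      · simp [h1]
    have zero_iff : ∀ x, lab R S x = 0 ↔ x ∉ S ∧ ∃ y ∈ S, R y x := by
      intro x
      unfold lab
      split_ifs with h1 h2
      · simp [h1]
      · simp only [true_iff]; exact ⟨h1, h2⟩
      · constructor
        · intro h; exact absurd h (by decide)
        · rintro ⟨-, h⟩; exact absurd h h2
    refine ⟨fun x hx => absurd (Finset.mem_univ x) hx, fun x _ => ⟨?_, ?_⟩⟩
    · rw [two_iff]
      simp only [Finset.mem_filter, Finset.mem_univ, true_and]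
      constructor
      · intro hx
        refine ⟨fun hR => hcf ⟨x, hx, x, hx, hR⟩, ?_⟩
        rintro y ⟨hR, -⟩
        rw [zero_iff]
        exact ⟨fun hy => hcf ⟨y, hy, x, hx, hR⟩, hadm x hx y hR⟩
      · rintro ⟨hxx, h⟩
        refine hcl x fun y hR => ?_
        have hyx : y ≠ x := fun e => hxx (e ▸ hR)
        exact ((zero_iff y).1 (h y ⟨hR, hyx⟩)).2
    · rw [zero_iff]
      constructor
      · rintro ⟨hx, y, hy, hR⟩
        exact ⟨y, ⟨hR, fun e => hx (e ▸ hy)⟩, (two_iff y).2 hy⟩
      · rintro ⟨y, ⟨hR, -⟩, hy⟩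
        have hy' := (two_iff y).1 hy
        exact ⟨fun hx => hcf ⟨y, hy', x, hx, hR⟩, y, hy', hR⟩
  · intro S _ T _ hST
    ext x
    have two_iff : ∀ (S : Set A) x, lab R S x = 2 ↔ x ∈ S := by
      intro S x
      unfold lab
      split_ifs with h1 h2
      · simp [h1]
      · simp [h1]
      · simp [h1]
    rw [← two_iff S, ← two_iff T, hST]

/-- The lower bound: a disjoint union of mutually attacking blocks. -/
lemma le_ncard (k : ℕ) (m : Fin k → ℕ) (hm : ∀ i, 2 ≤ m i) :
    ∏ i, (m i + 1) ≤ {S : Set (Σ i : Fin k, Fin (m i)) |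
      IsComplete (fun x y => x.1 = y.1 ∧ x ≠ y) S}.ncard := by
  classical
  have hcard : Fintype.card (∀ i : Fin k, Option (Fin (m i))) = ∏ i, (m i + 1) := by
    rw [Fintype.card_pi]
    simp
  rw [← hcard, ← Finset.card_univ, ← Set.ncard_coe_finset]
  refine Set.ncard_le_ncard_of_injOn
    (fun f => {x : Σ i : Fin k, Fin (m i) | f x.1 = some x.2}) ?_ ?_ (Set.toFinite _)
  · intro f _
    have uniq : ∀ x y : Σ i : Fin k, Fin (m i), f x.1 = some x.2 → f y.1 = some y.2 →
        x.1 = y.1 → x = y := by
      rintro ⟨i, a⟩ ⟨j, b⟩ hx hy hij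
      simp only at hx hy hij
      subst hij
      rw [hx] at hy
      simp only [Option.some.injEq] at hy
      rw [hy]
    refine ⟨?_, ?_, ?_⟩
    · rintro ⟨x, hx, y, hy, hxy, hne⟩
      exact hne (uniq x y hx hy hxy)
    · intro x hx y hyx
      exact ⟨x, hx, hyx.1.symm, hyx.2.symm⟩
    · intro x hx
      -- another element of the block of `x`
      obtain ⟨b, hb⟩ : ∃ b : Fin (m x.1), b ≠ x.2 := by
        have : Nontrivial (Fin (m x.1)) := Fin.nontrivial_iff_two_le.2 (hm x.1)
        exact exists_ne x.2
      have hbx : (⟨x.1, b⟩ : Σ i : Fin k, Fin (m i)) ≠ x := by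
        intro e
        apply hb
        have := (Sigma.mk.injEq _ _ _ _).mp (show (⟨x.1, b⟩ : Σ i : Fin k, Fin (m i)) = ⟨x.1, x.2⟩
          from e)
        exact eq_of_heq this.2
      obtain ⟨c, hc, hcb, -⟩ := hx ⟨x.1, b⟩ ⟨rfl, hbx⟩
      have hcx : c.1 = x.1 := hcb
      by_cases hcx' : c = x
      · rw [← hcx']; exact hc
      · obtain ⟨c', hc', hcc, hne⟩ := hx c ⟨hcx, hcx'⟩
        exact absurd (uniq c' c hc' hc hcc) hne
  · intro f _ g _ hfg
    funext i
    have key : ∀ a : Fin (m i), f i = some a ↔ g i = some a := by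
      intro a
      have := Set.ext_iff.1 hfg ⟨i, a⟩
      simpa using this
    cases hf : f i with
    | none =>
      cases hg : g i with
      | none => rfl
      | some b => rw [(key b).2 hg] at hf; exact absurd hf (by simp)
    | some a => exact ((key a).1 hf).symm

/-- **The maximal number of complete extensions.**  Among argumentation frameworks with `n`
arguments, the maximal number of complete extensions is `1` for `n ≤ 1`, `3 ^ (n / 2)` for even
`n ≥ 2` and `4 * 3 ^ ((n - 3) / 2)` for odd `n ≥ 3`. -/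
theorem result (n : ℕ) : IsGreatest (counts n)
    (if n ≤ 1 then 1 else if Even n then 3 ^ (n / 2) else 4 * 3 ^ ((n - 3) / 2)) := by
  classical
  have upper : ∀ k ∈ counts n,
      k ≤ (if n ≤ 1 then 1 else if Even n then 3 ^ (n / 2) else 4 * 3 ^ ((n - 3) / 2)) := by
    rintro k ⟨A, _, R, hA, rfl⟩
    refine (ncard_le R).trans ?_
    have hirr : ∀ x, ¬ (fun x y => R x y ∧ x ≠ y) x x := fun x h => h.2 rfl
    split_ifs with h1 h2
    · exact MP_acab80_co.card_Lab_small hirr _ (by rw [hA]; exact h1)
    · obtain ⟨j, hj⟩ := h2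
      have e : n / 2 = j := by omega
      rw [e]
      exact MP_acab80_co.card_Lab_even hirr _ j (by rw [hA]; omega)
    · rw [Nat.not_even_iff_odd] at h2
      obtain ⟨j, hj⟩ := h2
      have e : (n - 3) / 2 = j - 1 := by omega
      rw [e]
      exact MP_acab80_co.card_Lab_odd hirr _ (j - 1) (by rw [hA]; omega)
  refine ⟨?_, upper⟩
  -- attained: it suffices to exhibit a framework with at least that many
  suffices h : ∃ (A : Type) (_ : Fintype A) (R : A → A → Prop), Fintype.card A = n ∧
      (if n ≤ 1 then 1 else if Even n then 3 ^ (n / 2) else 4 * 3 ^ ((n - 3) / 2)) ≤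
        {S : Set A | IsComplete R S}.ncard by
    obtain ⟨A, iA, R, hA, hle⟩ := h
    refine ⟨A, iA, R, hA, le_antisymm (upper _ ⟨A, iA, R, hA, rfl⟩) hle⟩
  split_ifs with h1 h2
  · -- the empty relation
    refine ⟨Fin n, inferInstance, fun _ _ => False, by simp, ?_⟩
    have : (Set.univ : Set (Fin n)) ∈ {S : Set (Fin n) | IsComplete (fun _ _ => False) S} := by
      refine ⟨?_, ?_, ?_⟩
      · rintro ⟨a, -, b, -, h⟩; exact h
      · intro a _ b h; exact absurd h id
      · intro a _; exact Set.mem_univ a
    rw [Nat.one_le_iff_ne_zero, ne_eq, Set.ncard_eq_zero (Set.toFinite _)]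
    intro he
    rw [he] at this
    exact this
  · obtain ⟨j, hj⟩ := h2
    have e : n / 2 = j := by omega
    refine ⟨Σ i : Fin j, Fin ((fun _ => 2) i), inferInstance, fun x y => x.1 = y.1 ∧ x ≠ y, ?_, ?_⟩
    · simp only [Fintype.card_sigma, Fintype.card_fin, Finset.sum_const, Finset.card_univ,
        smul_eq_mul]
      omega
    · have := le_ncard j (fun _ => 2) (fun _ => le_rfl)
      simp only [Finset.prod_const, Finset.card_univ, Fintype.card_fin] at this
      rw [e]
      exact this
  · rw [Nat.not_even_iff_odd] at h2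
    obtain ⟨j, hj⟩ := h2
    have e : (n - 3) / 2 = j - 1 := by omega
    obtain ⟨t, rfl⟩ : ∃ t, j = t + 1 := ⟨j - 1, by omega⟩
    refine ⟨Σ i : Fin (t + 1), Fin ((fun i => if i = 0 then 3 else 2) i), inferInstance,
      fun x y => x.1 = y.1 ∧ x ≠ y, ?_, ?_⟩
    · simp only [Fintype.card_sigma, Fintype.card_fin]
      rw [Fin.sum_univ_succ]
      simp [Fin.succ_ne_zero]
      omega
    · have := le_ncard (t + 1) (fun i => if i = 0 then 3 else 2) (fun i => by
        by_cases hi : i = 0 <;> simp [hi])
      rw [Fin.prod_univ_succ] at this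
      simp only [Fin.succ_ne_zero, if_false, if_true, Finset.prod_const, Finset.card_univ,
        Fintype.card_fin] at this
      rw [e]
      exact this

end Pool.Agent.Results.MP_acab80_co.SigmaMax
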